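import Mathlib

set_option autoImplicit false

namespace Pool.Agent.Results.MP_071c0d_co.HalvedUpperBound

/-- Two edges (unordered pairs of vertices) meet if they have a common endpoint. -/
def Meet (e f : Sym2 ℕ) : Prop := ∃ v : ℕ, v ∈ e ∧ v ∈ f

/-- A play of Builder lasting `t` moves in the First-Fit game.  The host vertices are the natural
numbers (an unlimited supply of vertices).  `edge i` is the edge added at move `i`: it is not a
loop, and no edge is added twice, so that the current graph stays simple.  `colour i` is the colour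
it receives: the smallest positive integer which is not the colour of an edge added before it that
meets it (the First-Fit rule). -/
structure FirstFitPlay (t : ℕ) where
  edge : Fin t → Sym2 ℕ
  colour : Fin t → ℕ
  not_loop : ∀ i, ¬ (edge i).IsDiag
  injective_edge : Function.Injective edge
  first_fit : ∀ i, IsLeast {c : ℕ | 1 ≤ c ∧ ∀ j < i, Meet (edge i) (edge j) → colour j ≠ c}
    (colour i)

/-- The coloured graph at the end of the play `P` contains a rainbow copy of `H`: there are an
injective map `φ` from the vertices of `H` to the host vertices and, for each edge `e` of `H`, a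
move `ι e` at which the image of `e` under `φ` was added, such that different edges of `H` have
copies of different colours. -/
def FirstFitPlay.HasRainbowCopy {t : ℕ} (P : FirstFitPlay t) {V : Type*} (H : SimpleGraph V) :
    Prop :=
  ∃ φ : V → ℕ, Function.Injective φ ∧ ∃ ι : H.edgeSet → Fin t,
    (∀ e : H.edgeSet, P.edge (ι e) = Sym2.map φ (e : Sym2 V)) ∧
      Function.Injective (fun e : H.edgeSet => P.colour (ι e))

/-- The set of all `t` such that Builder can ensure that after `t` edges the coloured graph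
contains a rainbow copy of `H`. -/
def rainbowTimes {V : Type*} (H : SimpleGraph V) : Set ℕ :=
  {t | ∃ P : FirstFitPlay t, P.HasRainbowCopy H}

/-- The First-Fit anti-Ramsey number of `H`. -/
noncomputable def firstFitAntiRamsey {V : Type*} (H : SimpleGraph V) : ℕ :=
  sInf (rainbowTimes H)

/-- Any finite family of coloured edges which is proper and in which each edge meets an edge of
each smaller positive colour comes from a play of the same length. -/
theorem exists_play {ι : Type*} [Fintype ι] (edge : ι → Sym2 ℕ) (colour : ι → ℕ)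
    (hloop : ∀ i, ¬ (edge i).IsDiag) (hinj : Function.Injective edge)
    (hpos : ∀ i, 1 ≤ colour i)
    (hproper : ∀ i j, i ≠ j → Meet (edge i) (edge j) → colour i ≠ colour j)
    (hgreedy : ∀ i c, 1 ≤ c → c < colour i → ∃ j, Meet (edge i) (edge j) ∧ colour j = c) :
    ∃ (P : FirstFitPlay (Fintype.card ι)) (q : Fin (Fintype.card ι) ≃ ι),
      (∀ i, P.edge i = edge (q i)) ∧ ∀ i, P.colour i = colour (q i) := by
  classical
  let f0 : Fin (Fintype.card ι) ≃ ι := (Fintype.equivFin ι).symm
  let g : Fin (Fintype.card ι) → ℕ := fun i => colour (f0 i)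
  let q : Fin (Fintype.card ι) ≃ ι := (Tuple.sort g).trans f0
  have hmono : Monotone (fun i => colour (q i)) := Tuple.monotone_sort g
  refine ⟨⟨fun i => edge (q i), fun i => colour (q i), fun i => hloop _,
    hinj.comp q.injective, ?_⟩, q, fun _ => rfl, fun _ => rfl⟩
  intro i
  constructor
  · refine ⟨hpos _, ?_⟩
    intro j hj hm
    exact (hproper (q i) (q j) (fun h => hj.ne (q.injective h).symm) hm).symm
  · rintro c ⟨hc1, hc2⟩
    by_contra hlt
    push Not at hlt
    obtain ⟨j, hj, hjc⟩ := hgreedy (q i) c hc1 hlt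
    have hj' : q (q.symm j) = j := q.apply_symm_apply j
    have hlt' : q.symm j < i := by
      by_contra hle
      push Not at hle
      have := hmono hle
      simp only [hj', hjc] at this
      omega
    have := hc2 (q.symm j) hlt' (by rw [hj']; exact hj)
    apply this
    rw [hj', hjc]

/-- The construction.  `C` is a vertex cover, `σ` assigns to each edge of `H` an endpoint in `C`
and `ρ` is an injective ranking of the vertices with values less than `T` on `C`. -/
theorem exists_time {V : Type*} [Fintype V] [DecidableEq V] (H : SimpleGraph V)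
    (C : Finset V) (σ : H.edgeSet → V)
    (hσC : ∀ e, σ e ∈ C) (hσ : ∀ e : H.edgeSet, σ e ∈ (e : Sym2 V)) (ρ : V → ℕ) [Fintype H.edgeSet] :
    ∃ t ∈ rainbowTimes H, t ≤ ∑ v ∈ C, (Finset.univ.filter (fun e => ρ (σ e) ≤ ρ v)).card := by
  classical
  -- ordering of the edges by the rank of the centre of their star
  let k := Fintype.card H.edgeSet
  let f0 : Fin k ≃ H.edgeSet := (Fintype.equivFin H.edgeSet).symm
  let g : Fin k → ℕ := fun i => ρ (σ (f0 i))
  let q : Fin k ≃ H.edgeSet := (Tuple.sort g).trans f0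
  have hmono : Monotone (fun i => ρ (σ (q i))) := Tuple.monotone_sort g
  let col : H.edgeSet → ℕ := fun e => (q.symm e : ℕ) + 1
  have hcol_inj : Function.Injective col := by
    intro e f h
    have : (q.symm e : ℕ) = (q.symm f : ℕ) := by simpa [col] using h
    exact q.symm.injective (Fin.ext this)
  have hcol_pos : ∀ e, 1 ≤ col e := fun e => by simp [col]
  have hcol_mono : ∀ e f, col e ≤ col f → ρ (σ e) ≤ ρ (σ f) := by
    intro e f h
    have h' : q.symm e ≤ q.symm f := by
      have : (q.symm e : ℕ) ≤ (q.symm f : ℕ) := by simpa [col] using h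
      exact_mod_cast this
    have := hmono h'
    simpa using this
  have hcol_count : ∀ e, (Finset.univ.filter (fun f => col f ≤ col e)).card = col e := by
    intro e
    have : (Finset.univ.filter (fun f => col f ≤ col e)) =
        (Finset.univ.filter (fun i : Fin k => i ≤ q.symm e)).map q.toEmbedding := by
      ext f
      simp only [Finset.mem_filter, Finset.mem_univ, true_and, Finset.mem_map_equiv]
      simp [col]
    rw [this, Finset.card_map]
    have h2 : (Finset.univ.filter (fun i : Fin k => i ≤ q.symm e)) = Finset.Iic (q.symm e) := by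
      ext i; simp
    rw [h2, Fin.card_Iic]
  -- the star at v
  let star : V → Finset H.edgeSet := fun v => Finset.univ.filter (fun e => σ e = v)
  let M : V → ℕ := fun v => (star v).sup col
  let D : V → Finset ℕ := fun v =>
    (Finset.Icc 1 (M v)).filter (fun c => ¬ ∃ e : H.edgeSet, v ∈ (e : Sym2 V) ∧ col e = c)
  have hM : ∀ v, M v ≤ (Finset.univ.filter (fun e => ρ (σ e) ≤ ρ v)).card := by
    intro v
    by_cases hne : (star v).Nonempty
    · obtain ⟨e, he, hesup⟩ := Finset.exists_mem_eq_sup (star v) hne col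
      have hev : σ e = v := by simpa [star] using he
      have : M v = col e := hesup
      rw [this, ← hcol_count e]
      apply Finset.card_le_card
      intro f hf
      simp only [Finset.mem_filter, Finset.mem_univ, true_and] at hf ⊢
      rw [← hev]
      exact hcol_mono f e hf
    · rw [Finset.not_nonempty_iff_eq_empty] at hne
      simp [M, hne]
  have hD : ∀ v, (D v).card + (star v).card ≤ M v := by
    intro v
    have h1 : (star v).card = ((star v).image col).card :=
      (Finset.card_image_of_injective _ hcol_inj).symm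
    have h2 : Disjoint (D v) ((star v).image col) := by
      rw [Finset.disjoint_left]
      intro c hc hc'
      obtain ⟨e, he, hec⟩ := Finset.mem_image.1 hc'
      have hev : σ e = v := by simpa [star] using he
      apply (Finset.mem_filter.1 hc).2
      exact ⟨e, hev ▸ hσ e, hec⟩
    rw [h1, ← Finset.card_union_of_disjoint h2]
    have h3 : D v ∪ (star v).image col ⊆ Finset.Icc 1 (M v) := by
      apply Finset.union_subset (Finset.filter_subset _ _)
      intro c hc
      obtain ⟨e, he, hec⟩ := Finset.mem_image.1 hc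
      rw [Finset.mem_Icc, ← hec]
      exact ⟨hcol_pos e, Finset.le_sup (f := col) he⟩
    calc _ ≤ (Finset.Icc 1 (M v)).card := Finset.card_le_card h3
      _ = M v := by simp
  have hstar : ∑ v ∈ C, (star v).card = Fintype.card H.edgeSet := by
    rw [← Finset.card_univ]
    exact (Finset.card_eq_sum_card_fiberwise (fun e _ => hσC e)).symm
  -- embedding of the vertices
  let φ : V → ℕ := fun v => (Fintype.equivFin V v : ℕ)
  let m := Fintype.card V
  have hφ_inj : Function.Injective φ := fun a b h => by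
    apply (Fintype.equivFin V).injective
    exact Fin.ext h
  have hφ_lt : ∀ v, φ v < m := fun v => (Fintype.equivFin V v).2
  -- index type of the edges of the host graph
  let I := H.edgeSet ⊕ (Σ v : C, D v)
  let edge : I → Sym2 ℕ := fun i => match i with
    | Sum.inl e => Sym2.map φ (e : Sym2 V)
    | Sum.inr x => s(φ x.1, m + Nat.pair (φ x.1) (x.2 : ℕ))
  let colour : I → ℕ := fun i => match i with
    | Sum.inl e => col e
    | Sum.inr x => (x.2 : ℕ)
  have hnotφ : ∀ (v : V) (a : ℕ), φ v ≠ m + a := fun v a h => by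
    have := hφ_lt v
    omega
  have hmemφ : ∀ (e : Sym2 V) (x : ℕ), x ∈ Sym2.map φ e → ∃ v ∈ e, φ v = x := by
    intro e x hx
    exact Sym2.mem_map.1 hx
  have hmemφ' : ∀ (e : Sym2 V) (v : V), φ v ∈ Sym2.map φ e → v ∈ e := by
    intro e v hx
    obtain ⟨w, hw, hwv⟩ := Sym2.mem_map.1 hx
    rwa [← hφ_inj hwv]
  have hloop : ∀ i, ¬ (edge i).IsDiag := by
    rintro (e | x)
    · intro h
      have h1 : ¬ (e : Sym2 V).IsDiag := H.not_isDiag_of_mem_edgeSet e.2
      apply h1
      exact (Sym2.isDiag_map hφ_inj).1 h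
    · intro h
      exact hnotφ _ _ (Sym2.mk_isDiag_iff.1 h)
  have hDmem : ∀ (v : V) (c : ℕ), c ∈ D v →
      1 ≤ c ∧ c ≤ M v ∧ ∀ e : H.edgeSet, v ∈ (e : Sym2 V) → col e ≠ c := by
    intro v c hc
    have h1 := Finset.mem_filter.1 hc
    have h2 := Finset.mem_Icc.1 h1.1
    refine ⟨h2.1, h2.2, fun e he hec => h1.2 ⟨e, he, hec⟩⟩
  have hext : ∀ x y : (Σ v : C, D v), φ x.1 = φ y.1 → (x.2 : ℕ) = (y.2 : ℕ) → x = y := by
    rintro ⟨⟨v, hv⟩, ⟨c, hc⟩⟩ ⟨⟨w, hw⟩, ⟨d, hd⟩⟩ h1 h2
    have h1' : v = w := hφ_inj h1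
    have h2' : c = d := h2
    subst h1'
    subst h2'
    rfl
  have hmix : ∀ (e : H.edgeSet) (x : Σ v : C, D v),
      Meet (edge (Sum.inl e)) (edge (Sum.inr x)) → col e ≠ (x.2 : ℕ) := by
    rintro e x ⟨u, hu1, hu2⟩
    have hu1' : u ∈ Sym2.map φ (e : Sym2 V) := hu1
    have hu2' : u ∈ s(φ x.1, m + Nat.pair (φ x.1) (x.2 : ℕ)) := hu2
    rcases Sym2.mem_iff.1 hu2' with h | h
    · apply (hDmem _ _ x.2.2).2.2
      apply hmemφ'
      rw [← h]
      exact hu1'
    · exfalso
      obtain ⟨w, _, hw⟩ := hmemφ _ _ hu1'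
      exact hnotφ w _ (hw.trans h)
  have hproper : ∀ i j, i ≠ j → Meet (edge i) (edge j) → colour i ≠ colour j := by
    rintro (e | x) (f | y) hne hm hc
    · exact hne (congrArg Sum.inl (hcol_inj hc))
    · exact hmix e y hm hc
    · obtain ⟨u, hu1, hu2⟩ := hm
      exact hmix f x ⟨u, hu2, hu1⟩ hc.symm
    · obtain ⟨u, hu1, hu2⟩ := hm
      have hu1' : u ∈ s(φ x.1, m + Nat.pair (φ x.1) (x.2 : ℕ)) := hu1
      have hu2' : u ∈ s(φ y.1, m + Nat.pair (φ y.1) (y.2 : ℕ)) := hu2
      have hc' : (x.2 : ℕ) = (y.2 : ℕ) := hc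
      apply hne
      congr 1
      rcases Sym2.mem_iff.1 hu1' with h | h <;> rcases Sym2.mem_iff.1 hu2' with h' | h'
      · exact hext x y (h.symm.trans h') hc'
      · exact absurd (h.symm.trans h') (hnotφ _ _)
      · exact absurd (h'.symm.trans h) (hnotφ _ _)
      · have h3 : Nat.pair (φ x.1) (x.2 : ℕ) = Nat.pair (φ y.1) (y.2 : ℕ) := by omega
        have h4 := Nat.pair_eq_pair.1 h3
        exact hext x y h4.1 h4.2
  have hinj : Function.Injective edge := by
    rintro (e | x) (f | y) hij
    · have h : Sym2.map φ (e : Sym2 V) = Sym2.map φ (f : Sym2 V) := hij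
      exact congrArg Sum.inl (Subtype.ext (Sym2.map.injective hφ_inj h))
    · exfalso
      have h : m + Nat.pair (φ y.1) (y.2 : ℕ) ∈ Sym2.map φ (e : Sym2 V) := by
        have h' : Sym2.map φ (e : Sym2 V) = s(φ y.1, m + Nat.pair (φ y.1) (y.2 : ℕ)) := hij
        rw [h']
        exact Sym2.mem_mk_right _ _
      obtain ⟨w, _, hw⟩ := hmemφ _ _ h
      exact hnotφ w _ hw
    · exfalso
      have h : m + Nat.pair (φ x.1) (x.2 : ℕ) ∈ Sym2.map φ (f : Sym2 V) := by
        have h' : s(φ x.1, m + Nat.pair (φ x.1) (x.2 : ℕ)) = Sym2.map φ (f : Sym2 V) := hij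
        rw [← h']
        exact Sym2.mem_mk_right _ _
      obtain ⟨w, _, hw⟩ := hmemφ _ _ h
      exact hnotφ w _ hw
    · have h : s(φ x.1, m + Nat.pair (φ x.1) (x.2 : ℕ)) =
          s(φ y.1, m + Nat.pair (φ y.1) (y.2 : ℕ)) := hij
      congr 1
      rcases Sym2.eq_iff.1 h with ⟨h1, h2⟩ | ⟨h1, h2⟩
      · have h3 : Nat.pair (φ x.1) (x.2 : ℕ) = Nat.pair (φ y.1) (y.2 : ℕ) := by omega
        exact hext x y h1 (Nat.pair_eq_pair.1 h3).2
      · exact absurd h1 (hnotφ _ _)
  have hpos : ∀ i, 1 ≤ colour i := by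
    rintro (e | x)
    · exact hcol_pos e
    · exact (hDmem _ _ x.2.2).1
  have hgreedy : ∀ i c, 1 ≤ c → c < colour i → ∃ j, Meet (edge i) (edge j) ∧ colour j = c := by
    have key : ∀ (v : V) (hv : v ∈ C) (c : ℕ), 1 ≤ c → c ≤ M v → ∃ j, φ v ∈ edge j ∧ colour j = c := by
      intro v hv c hc1 hc2
      by_cases h : ∃ e : H.edgeSet, v ∈ (e : Sym2 V) ∧ col e = c
      · obtain ⟨e, he, hec⟩ := h
        exact ⟨Sum.inl e, Sym2.mem_map.2 ⟨v, he, rfl⟩, hec⟩
      · refine ⟨Sum.inr ⟨⟨v, hv⟩, ⟨c, ?_⟩⟩, Sym2.mem_mk_left _ _, rfl⟩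
        exact Finset.mem_filter.2 ⟨Finset.mem_Icc.2 ⟨hc1, hc2⟩, h⟩
    rintro (e | x) c hc1 hc2
    · have hce : c < col e := hc2
      have hMe : col e ≤ M (σ e) := Finset.le_sup (f := col) (by simp [star])
      obtain ⟨j, hj, hjc⟩ := key (σ e) (hσC e) c hc1 (hce.le.trans hMe)
      exact ⟨j, ⟨φ (σ e), Sym2.mem_map.2 ⟨σ e, hσ e, rfl⟩, hj⟩, hjc⟩
    · have hcx : c < (x.2 : ℕ) := hc2
      obtain ⟨j, hj, hjc⟩ := key x.1 x.1.2 c hc1 (hcx.le.trans (hDmem _ _ x.2.2).2.1)
      exact ⟨j, ⟨φ x.1, Sym2.mem_mk_left _ _, hj⟩, hjc⟩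
  obtain ⟨P, r, hPe, hPc⟩ := exists_play edge colour hloop hinj hpos hproper hgreedy
  refine ⟨Fintype.card I, ⟨P, φ, hφ_inj, fun e => r.symm (Sum.inl e), ?_, ?_⟩, ?_⟩
  · intro e
    rw [hPe, Equiv.apply_symm_apply]
  · intro e f hef
    simp only [hPc, Equiv.apply_symm_apply] at hef
    exact hcol_inj hef
  · have hcard : Fintype.card I = ∑ v ∈ C, ((star v).card + (D v).card) := by
      rw [Finset.sum_add_distrib, hstar, Fintype.card_sum, Fintype.card_sigma]
      congr 1
      rw [← Finset.sum_coe_sort C (fun v => (D v).card)]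
      simp
    rw [hcard]
    apply Finset.sum_le_sum
    intro v _
    have h1 := hD v
    have h2 := hM v
    omega

/-- For every finite graph `H`, Builder can force a rainbow copy of `H` against First-Fit, and the
First-Fit anti-Ramsey number of `H` is at most half of (vertex cover number plus one) times the
number of edges. -/
theorem result {V : Type*} [Finite V] (H : SimpleGraph V) :
    (rainbowTimes H).Nonempty ∧
      2 * (firstFitAntiRamsey H : ℕ∞) ≤ (H.vertexCoverNum + 1) * H.edgeSet.encard := by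
  classical
  have : Fintype V := Fintype.ofFinite V
  obtain ⟨s, hs, hcov⟩ := H.vertexCoverNum_exists
  let C : Finset V := s.toFinset
  have hCs : ∀ v, v ∈ C ↔ v ∈ s := fun v => by simp [C]
  have hτ : H.vertexCoverNum = (C.card : ℕ∞) := by
    rw [← hs, Set.encard_eq_coe_toFinset_card]
  have hk : H.edgeSet.encard = (Fintype.card H.edgeSet : ℕ∞) := by
    rw [Set.encard_eq_coe_toFinset_card, Set.toFinset_card]
  -- the centre of the star containing a given edge
  have hσ_ex : ∀ e : H.edgeSet, ∃ v, v ∈ C ∧ v ∈ (e : Sym2 V) := by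
    rintro ⟨e, he⟩
    induction e using Sym2.ind with
    | _ a b =>
      have hab : H.Adj a b := he
      rcases hcov hab with h | h
      · exact ⟨a, (hCs a).2 h, Sym2.mem_mk_left _ _⟩
      · exact ⟨b, (hCs b).2 h, Sym2.mem_mk_right _ _⟩
  choose σ hσC hσ using hσ_ex
  let ρ : V → ℕ := fun v => if h : v ∈ C then (C.equivFin ⟨v, h⟩ : ℕ) else 0
  have hρ_lt : ∀ v ∈ C, ρ v < C.card := by
    intro v hv
    simp only [ρ, hv, dif_pos]
    exact (C.equivFin ⟨v, hv⟩).2
  have hρ_inj : ∀ v ∈ C, ∀ w ∈ C, ρ v = ρ w → v = w := by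
    intro v hv w hw h
    simp only [ρ, hv, hw, dif_pos] at h
    have := C.equivFin.injective (Fin.ext h)
    exact congrArg Subtype.val this
  let ρ' : V → ℕ := fun v => C.card - ρ v
  obtain ⟨t₁, ht₁, hle₁⟩ := exists_time H C σ hσC hσ ρ
  obtain ⟨t₂, ht₂, hle₂⟩ := exists_time H C σ hσC hσ ρ'
  have hswap : ∀ r : V → ℕ,
      ∑ v ∈ C, (Finset.univ.filter (fun e : H.edgeSet => r (σ e) ≤ r v)).card =
        ∑ e : H.edgeSet, (C.filter (fun v => r (σ e) ≤ r v)).card := by
    intro r
    exact Finset.sum_card_bipartiteAbove_eq_sum_card_bipartiteBelow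
      (fun v e => r (σ e) ≤ r v)
  have hone : ∀ e : H.edgeSet, (C.filter (fun v => ρ (σ e) ≤ ρ v)).card +
      (C.filter (fun v => ρ' (σ e) ≤ ρ' v)).card = C.card + 1 := by
    intro e
    have h1 : C.filter (fun v => ρ' (σ e) ≤ ρ' v) =
        insert (σ e) (C.filter (fun v => ¬ ρ (σ e) ≤ ρ v)) := by
      ext v
      simp only [Finset.mem_filter, Finset.mem_insert]
      constructor
      · rintro ⟨hv, h⟩
        have h2 : ρ v ≤ ρ (σ e) := by
          have h3 := hρ_lt v hv
          have h4 := hρ_lt _ (hσC e)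
          simp only [ρ'] at h
          omega
        rcases h2.lt_or_eq with h3 | h3
        · exact Or.inr ⟨hv, by omega⟩
        · exact Or.inl (hρ_inj v hv _ (hσC e) h3)
      · rintro (h | ⟨hv, h⟩)
        · subst h
          exact ⟨hσC e, le_rfl⟩
        · refine ⟨hv, ?_⟩
          simp only [ρ']
          omega
    rw [h1, Finset.card_insert_of_notMem (by simp), ← add_assoc,
      Finset.card_filter_add_card_filter_not]
  have hsum : t₁ + t₂ ≤ Fintype.card H.edgeSet * (C.card + 1) := by
    calc t₁ + t₂ ≤ _ := Nat.add_le_add hle₁ hle₂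
      _ = ∑ e : H.edgeSet, (C.card + 1) := by
          rw [hswap ρ, hswap ρ', ← Finset.sum_add_distrib]
          exact Finset.sum_congr rfl (fun e _ => hone e)
      _ = _ := by simp
  refine ⟨⟨t₁, ht₁⟩, ?_⟩
  have h1 : firstFitAntiRamsey H ≤ t₁ := Nat.sInf_le ht₁
  have h2 : firstFitAntiRamsey H ≤ t₂ := Nat.sInf_le ht₂
  have h3 : 2 * firstFitAntiRamsey H ≤ (C.card + 1) * Fintype.card H.edgeSet := by
    rw [Nat.mul_comm (C.card + 1)]
    omega
  rw [hτ, hk]
  exact_mod_cast h3

end Pool.Agent.Results.MP_071c0d_co.HalvedUpperBound
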